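import Mathlib

/-!
# Graphs with exactly one proper edge 3-weighting up to isomorphism

In a triangle the vertex sums of an edge weighting are pairwise different exactly when the three
weights are pairwise different, and the automorphisms of the triangle act on its edges as the full
symmetric group. So the triangle, and more generally every disjoint union of triangles, has exactly
one edge 3-weighting up to isomorphism which properly colours the vertices by sums.
-/

set_option autoImplicit false

namespace Pool.Agent.Results.MP_9e9a14_co.TrianglesUnique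

open Classical in
/-- The vertex sum `σ_w(v)`: the sum of the weights of the edges of `G` at `v`. -/
noncomputable def vertexSum {V : Type} [Fintype V] (G : SimpleGraph V) (w : Sym2 V → ℕ) (v : V) :
    ℕ :=
  ∑ u : V, if G.Adj v u then w s(v, u) else 0

/-- `w` is an edge 3-weighting of `G` (only its values on the edges of `G` matter) which properly
colours the vertices of `G` by sums. -/
def IsProperWeighting {V : Type} [Fintype V] (G : SimpleGraph V) (w : Sym2 V → ℕ) : Prop :=
  (∀ e ∈ G.edgeSet, w e = 1 ∨ w e = 2 ∨ w e = 3) ∧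
    ∀ u v, G.Adj u v → vertexSum G w u ≠ vertexSum G w v

/-- `G` has exactly one edge 3-weighting, up to isomorphism, properly colouring its vertices by
sums. -/
def UniquelyWeightColourable {V : Type} [Fintype V] (G : SimpleGraph V) : Prop :=
  (∃ w : Sym2 V → ℕ, IsProperWeighting G w) ∧
    ∀ w w' : Sym2 V → ℕ, IsProperWeighting G w → IsProperWeighting G w' →
      ∃ φ : G ≃g G, ∀ e ∈ G.edgeSet, w' (Sym2.map φ e) = w e

/-- The disjoint union of triangles indexed by `ι`; for `ι = Fin 1` it is the triangle. -/
def triangles (ι : Type) : SimpleGraph (ι × Fin 3) where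
  Adj x y := x.1 = y.1 ∧ x.2 ≠ y.2
  symm := ⟨fun _ _ h => ⟨h.1.symm, h.2.symm⟩⟩
  loopless := ⟨fun _ h => h.2 rfl⟩

section aux

variable {ι : Type} [Fintype ι]

/-- the weight of the edge opposite to the vertex `k` of the triangle `i` -/
def opp (w : Sym2 (ι × Fin 3) → ℕ) (i : ι) (k : Fin 3) : ℕ := w s((i, k + 1), (i, k + 2))

lemma vertexSum_triangles (w : Sym2 (ι × Fin 3) → ℕ) (i : ι) (k : Fin 3) :
    vertexSum (triangles ι) w (i, k) = w s((i, k), (i, k + 1)) + w s((i, k), (i, k + 2)) := by
  classical
  unfold vertexSum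
  rw [Fintype.sum_prod_type, Finset.sum_eq_single i]
  · fin_cases k <;> simp [triangles, Fin.sum_univ_three] <;> first | rfl | exact Nat.add_comm _ _
  · intro j _ hj
    apply Finset.sum_eq_zero
    intro l _
    rw [if_neg]
    intro h
    exact hj h.1.symm
  · intro h
    exact absurd (Finset.mem_univ i) h

lemma sum_eq (w : Sym2 (ι × Fin 3) → ℕ) (i : ι) (k : Fin 3) :
    vertexSum (triangles ι) w (i, k) = opp w i (k + 1) + opp w i (k + 2) := by
  rw [vertexSum_triangles]
  unfold opp
  have h1 : k + 1 + 1 = k + 2 := by fin_cases k <;> rfl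
  have h2 : k + 1 + 2 = k := by fin_cases k <;> rfl
  have h3 : k + 2 + 1 = k := by fin_cases k <;> rfl
  have h4 : k + 2 + 2 = k + 1 := by fin_cases k <;> rfl
  rw [h1, h2, h3, h4, Nat.add_comm, Sym2.eq_swap (a := (i, k)) (b := (i, k + 2))]

omit [Fintype ι] in
lemma adj_triangles (i : ι) {k l : Fin 3} (h : k ≠ l) : (triangles ι).Adj (i, k) (i, l) :=
  ⟨rfl, h⟩

lemma opp_mem {w : Sym2 (ι × Fin 3) → ℕ} (hw : IsProperWeighting (triangles ι) w) (i : ι)
    (k : Fin 3) : opp w i k = 1 ∨ opp w i k = 2 ∨ opp w i k = 3 :=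
  hw.1 _ (adj_triangles i (by fin_cases k <;> decide))

lemma opp_inj {w : Sym2 (ι × Fin 3) → ℕ} (hw : IsProperWeighting (triangles ι) w) (i : ι) :
    Function.Injective (opp w i) := by
  have tot : ∀ k : Fin 3, opp w i (k + 1) + opp w i (k + 2) + opp w i k =
      opp w i 0 + opp w i 1 + opp w i 2 := by
    intro k
    fin_cases k
    · show opp w i 1 + opp w i 2 + opp w i 0 = _
      omega
    · show opp w i 2 + opp w i 0 + opp w i 1 = _
      omega
    · show opp w i 0 + opp w i 1 + opp w i 2 = _
      omega
  intro k l heq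
  by_contra hkl
  have h := hw.2 (i, k) (i, l) (adj_triangles i hkl)
  rw [sum_eq, sum_eq] at h
  apply h
  have h1 := tot k
  have h2 := tot l
  omega

lemma exists_perm {f g : Fin 3 → ℕ} (hf : ∀ k, f k = 1 ∨ f k = 2 ∨ f k = 3)
    (hg : ∀ k, g k = 1 ∨ g k = 2 ∨ g k = 3) (hfi : Function.Injective f)
    (hgi : Function.Injective g) : ∃ π : Equiv.Perm (Fin 3), ∀ k, g (π k) = f k := by
  have hsurj : ∀ m : ℕ, (m = 1 ∨ m = 2 ∨ m = 3) → ∃ l, g l = m := by
    intro m hm
    by_contra hcon
    push Not at hcon
    have h0 := hg 0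
    have h1 := hg 1
    have h2 := hg 2
    have c0 := hcon 0
    have c1 := hcon 1
    have c2 := hcon 2
    have d01 : g 0 ≠ g 1 := fun h => absurd (hgi h) (by decide)
    have d02 : g 0 ≠ g 2 := fun h => absurd (hgi h) (by decide)
    have d12 : g 1 ≠ g 2 := fun h => absurd (hgi h) (by decide)
    omega
  choose π hπ using fun k => hsurj (f k) (hf k)
  have hinj : Function.Injective π := by
    intro a b hab
    apply hfi
    rw [← hπ a, ← hπ b, hab]
  exact ⟨Equiv.ofBijective π ((Finite.injective_iff_bijective).1 hinj), hπ⟩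

/-- an opposite-edge description of the edges -/
lemma edge_form {a b : Fin 3} (h : a ≠ b) :
    ∃ k : Fin 3, (a = k + 1 ∧ b = k + 2) ∨ (a = k + 2 ∧ b = k + 1) := by
  revert a b; decide

lemma perm_opp (π : Equiv.Perm (Fin 3)) (k : Fin 3) :
    (π (k + 1) = π k + 1 ∧ π (k + 2) = π k + 2) ∨ (π (k + 1) = π k + 2 ∧ π (k + 2) = π k + 1) := by
  have d1 : ∀ k : Fin 3, k + 1 ≠ k := by decide
  have d2 : ∀ k : Fin 3, k + 2 ≠ k := by decide
  have d3 : ∀ k : Fin 3, k + 1 ≠ k + 2 := by decide
  have h1 : π (k + 1) ≠ π k := fun h => d1 k (π.injective h)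
  have h2 : π (k + 2) ≠ π k := fun h => d2 k (π.injective h)
  have h3 : π (k + 1) ≠ π (k + 2) := fun h => d3 k (π.injective h)
  generalize π (k + 1) = x at *
  generalize π (k + 2) = y at *
  generalize π k = z at *
  revert x y z
  decide

end aux

/-- The triangle, and more generally every disjoint union of at least one triangle, has at least
one edge and exactly one edge 3-weighting, up to isomorphism, properly colouring its vertices by
sums. -/
theorem result : ∀ (ι : Type) [Fintype ι] [Nonempty ι],
    (triangles ι).edgeSet.Nonempty ∧ UniquelyWeightColourable (triangles ι) := by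
  intro ι _ _
  classical
  obtain ⟨i₀⟩ := (inferInstance : Nonempty ι)
  refine ⟨⟨s((i₀, 0), (i₀, 1)), adj_triangles i₀ (by decide)⟩, ?_, ?_⟩
  · -- existence
    refine ⟨fun e => Sym2.lift ⟨fun x y : ι × Fin 3 => ((x.2 : ℕ) + (y.2 : ℕ)),
      fun x y => Nat.add_comm _ _⟩ e, ?_, ?_⟩
    · intro e
      induction e using Sym2.ind with
      | _ x y =>
        intro h
        rw [SimpleGraph.mem_edgeSet] at h
        obtain ⟨-, h2⟩ := h
        simp only [Sym2.lift_mk]
        generalize x.2 = a at *
        generalize y.2 = b at *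
        revert a b
        decide
    · rintro ⟨i, k⟩ ⟨j, l⟩ ⟨h1, h2⟩
      simp only at h1 h2
      subst h1
      rw [sum_eq, sum_eq]
      simp only [opp, Sym2.lift_mk]
      revert k l
      decide
  · -- uniqueness
    intro w w' hw hw'
    choose π hπ using fun i => exists_perm (opp_mem hw i) (opp_mem hw' i) (opp_inj hw i)
      (opp_inj hw' i)
    let φ : (ι × Fin 3) ≃ (ι × Fin 3) :=
      { toFun := fun x => (x.1, π x.1 x.2)
        invFun := fun x => (x.1, (π x.1).symm x.2)
        left_inv := fun x => by simp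
        right_inv := fun x => by simp }
    have hφ : ∀ x y, (triangles ι).Adj (φ x) (φ y) ↔ (triangles ι).Adj x y := by
      rintro ⟨i, a⟩ ⟨j, b⟩
      constructor
      · rintro ⟨h1, h2⟩
        have h1' : i = j := h1
        subst h1'
        exact ⟨rfl, fun h => h2 (by simp only [φ, Equiv.coe_fn_mk]; exact congrArg _ h)⟩
      · rintro ⟨h1, h2⟩
        have h1' : i = j := h1
        subst h1'
        exact ⟨rfl, fun h => h2 ((π i).injective h)⟩
    refine ⟨⟨φ, fun {a b} => hφ a b⟩, ?_⟩
    intro e
    induction e using Sym2.ind with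
    | _ x y =>
      obtain ⟨i, a⟩ := x
      obtain ⟨j, b⟩ := y
      intro h
      rw [SimpleGraph.mem_edgeSet] at h
      obtain ⟨h1, h2⟩ := h
      simp only at h1 h2
      subst h1
      have hk : ∀ k : Fin 3, w' s((i, π i (k + 1)), (i, π i (k + 2))) =
          w s((i, k + 1), (i, k + 2)) := by
        intro k
        have h3 : opp w' i (π i k) = opp w i k := hπ i k
        unfold opp at h3
        rcases perm_opp (π i) k with ⟨h4, h5⟩ | ⟨h4, h5⟩
        · rw [h4, h5]; exact h3
        · rw [h4, h5, Sym2.eq_swap]; exact h3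
      obtain ⟨k, ⟨rfl, rfl⟩ | ⟨rfl, rfl⟩⟩ := edge_form h2
      · exact hk k
      · have := hk k
        rw [Sym2.eq_swap (a := (i, k + 2)) (b := (i, k + 1))]
        exact this

end Pool.Agent.Results.MP_9e9a14_co.TrianglesUnique
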